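import Pool.Agent.U735.TC.Defs
import Pool.Agent.U735.IL.Exist

/-!
# The existence of the t-structure from motivic subobjects of the lowest cohomology groups
-/

set_option autoImplicit false
set_option linter.unusedSectionVars false
set_option linter.unusedSimpArgs false
set_option linter.unusedVariables false
set_option backward.isDefEq.respectTransparency false
set_option backward.defeqAttrib.useBackward true

open CategoryTheory Limits MonoidalCategory Pretriangulated Triangulated ZeroObject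

namespace Pool.Agent.U735.TC

open Pool.Agent.Y116.MT Pool.Agent.V1178.MT Pool.Agent.U735.IL

universe v u w

section

variable {C : Type u} [Category.{v} C] [Preadditive C] [HasZeroObject C] [HasShift C ℤ]
  [∀ n : ℤ, (shiftFunctor C n).Additive] [Pretriangulated C] [MonoidalCategory C]
  [SymmetricCategory C] [TensorTriangulated C] [MonoidalPreadditive C] [RightRigidCategory C]
  [IsTriangulated C] {Λ : Type*} {E : Λ → Type w} [∀ l, Field (E l)]
  {R : ∀ l, Realisation C (E l)} {l : Λ}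

/-- The object is concentrated in degree `d` for all realisations. -/
def Pu (R : ∀ l, Realisation C (E l)) (d : ℤ) (X : C) : Prop :=
  ∀ (l' : Λ) (i : ℤ), i ≠ d → IsZero ((R l').H.obj (X⟦i⟧))

/-- Pure objects with degree in `[a, b)`. -/
def Bt (R : ∀ l, Realisation C (E l)) (a b : ℤ) : ObjectProperty C := fun X =>
  ∃ d, a ≤ d ∧ d < b ∧ Pu R d X

lemma ext_mono {A B : ObjectProperty C} (h : ∀ X, A X → B X) {X : C} (hX : Ext A X) :
    Ext B X := by
  induction hX with
  | zero h0 => exact .zero h0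
  | step hT _ hZ ih => exact .step hT ih (h _ hZ)

lemma bt_vanish {a b : ℤ} {X : C} (h : Ext (Bt R a b) X) (l' : Λ) {i : ℤ} (hi : i < a ∨ b ≤ i) :
    IsZero ((R l').H.obj (X⟦i⟧)) := by
  induction h with
  | zero h => exact (R l').H.map_isZero (isZero_shift h i)
  | step hT _ hZ ih =>
    obtain ⟨d, h1, h2, hZ⟩ := hZ
    exact hz1' hT i ih (hZ l' i (by omega))

omit [MonoidalPreadditive C] [RightRigidCategory C] [IsTriangulated C] in
lemma mono_zero_iff {E : Type w} [Field E] {R : Realisation C E} {X Y : C} (f : X ⟶ Y) :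
    Mono (R.H.map (f⟦(0 : ℤ)⟧')) ↔ Mono (R.H.map f) := by
  have h1 : R.H.map (f⟦(0 : ℤ)⟧') = R.H.map ((shiftFunctorZero C ℤ).hom.app X) ≫ R.H.map f ≫
      R.H.map ((shiftFunctorZero C ℤ).inv.app Y) := by
    rw [← Functor.map_comp, ← Functor.map_comp]
    congr 1
    exact shiftZero' (A := ℤ) (f := f)
  have h2 : R.H.map f = R.H.map ((shiftFunctorZero C ℤ).inv.app X) ≫ R.H.map (f⟦(0 : ℤ)⟧') ≫
      R.H.map ((shiftFunctorZero C ℤ).hom.app Y) := by
    rw [h1]
    simp only [← Functor.map_comp, Category.assoc, Iso.inv_hom_id_app, Iso.inv_hom_id_app_assoc]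
    simp
  constructor
  · intro h
    rw [h2]
    infer_instance
  · intro h
    rw [h1]
    infer_instance

lemma sub_shift (hs : LowestHasSub R l) {X : C} {a : ℤ}
    (hX : ∀ i : ℤ, i < a → IsZero ((R l).H.obj (X⟦i⟧))) (hX0 : ¬ IsZero ((R l).H.obj (X⟦a⟧))) :
    ∃ (A : C) (f : A ⟶ X), ¬ IsZero A ∧ Pu R a A ∧ Mono ((R l).H.map (f⟦a⟧')) := by
  obtain ⟨A, f, hA0, hA, hf⟩ := hs (X⟦a⟧) (fun i hi => (hX (a + i) (by omega)).of_iso
    ((R l).H.mapIso ((shiftFunctorAdd C a i).app X).symm)) hX0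
  obtain ⟨g, hg⟩ := (shiftFunctor C a).map_surjective
    ((shiftEquiv C a).counitIso.hom.app A ≫ f : (A⟦-a⟧)⟦a⟧ ⟶ X⟦a⟧)
  refine ⟨A⟦-a⟧, g, fun h => hA0 (isZero_of_shift (-a) h), fun l' i hi => ?_, ?_⟩
  · exact (hA l' (-a + i) (by omega)).of_iso
      ((R l').H.mapIso ((shiftFunctorAdd C (-a) i).app A).symm)
  · rw [hg, Functor.map_comp]
    have : IsIso ((shiftEquiv C a).counitIso.hom.app A) := inferInstance
    exact mono_comp _ _

/-- Removing the lowest cohomology group. -/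
lemma remove_lowest (hc : Conservative (R l)) (hs : LowestHasSub R l) (a : ℤ) (n : ℕ) :
    ∀ X : C, (∀ i : ℤ, i < a → IsZero ((R l).H.obj (X⟦i⟧))) →
      Module.finrank (E l) ((R l).H.obj (X⟦a⟧)) ≤ n →
      ∃ A B, Tr A X B ∧ Ext (Bt R a (a + 1)) A ∧
        (∀ i : ℤ, i < a + 1 → IsZero ((R l).H.obj (B⟦i⟧))) := by
  induction n with
  | zero =>
    intro X hX hn
    refine ⟨0, X, Tr.zero₁ (Iso.refl X) (isZero_zero C), .zero (isZero_zero C), fun i hi => ?_⟩
    by_cases h : i < a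
    · exact hX i h
    · obtain rfl : i = a := by omega
      rw [ModuleCat.isZero_iff_subsingleton]
      exact Module.finrank_zero_iff.1 (Nat.le_zero.1 hn)
  | succ n ih =>
    intro X hX hn
    by_cases h0 : IsZero ((R l).H.obj (X⟦a⟧))
    · refine ⟨0, X, Tr.zero₁ (Iso.refl X) (isZero_zero C), .zero (isZero_zero C), fun i hi => ?_⟩
      by_cases h : i < a
      · exact hX i h
      · obtain rfl : i = a := by omega
        exact h0
    obtain ⟨A₁, f, hA0, hA₁, hf⟩ := sub_shift hs hX h0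
    obtain ⟨X₁, g, h, hT⟩ := distinguished_cocone_triangle f
    have hX1 : ∀ i : ℤ, i < a → IsZero ((R l).H.obj (X₁⟦i⟧)) := by
      intro i hi
      apply vzero₃ hT
      · have h2 : IsZero ((R l).H.obj (X⟦i⟧)) := hX i hi
        exact ⟨fun _ _ _ => h2.eq_of_src _ _⟩
      · by_cases h1 : i + 1 = a
        · rw [h1]
          exact hf
        · have h2 : IsZero ((R l).H.obj (A₁⟦i + 1⟧)) := hA₁ l _ (by omega)
          exact ⟨fun _ _ _ => h2.eq_of_tgt _ _⟩
    have hA1 : ¬ IsZero ((R l).H.obj (A₁⟦a⟧)) := by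
      intro h1
      apply hA0
      apply hc
      intro i
      by_cases hi : i = a
      · rw [hi]
        exact h1
      · exact hA₁ l i hi
    have hdim : Module.finrank (E l) ((R l).H.obj (X₁⟦a⟧)) ≤ n := by
      let _ := Functor.ShiftSequence.tautological (R l).H ℤ
      have hepi : Epi ((R l).H.map (g⟦a⟧')) := hepi2 (R l).H hT a (hA₁ l _ (by omega))
      have hex := ((R l).H.homologySequence_exact₂ _ hT a).moduleCat_range_eq_ker
      have hex' : LinearMap.range ((R l).H.map (f⟦a⟧')).hom =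
        LinearMap.ker ((R l).H.map (g⟦a⟧')).hom := hex
      have e1 : Function.Surjective ((R l).H.map (g⟦a⟧')).hom :=
        (ModuleCat.epi_iff_surjective _).1 hepi
      have e2 : Function.Injective ((R l).H.map (f⟦a⟧')).hom :=
        (ModuleCat.mono_iff_injective _).1 hf
      have e3 := LinearMap.finrank_range_add_finrank_ker ((R l).H.map (g⟦a⟧')).hom
      rw [LinearMap.range_eq_top.2 e1, finrank_top, ← hex',
        LinearMap.finrank_range_of_inj e2] at e3
      have e4 : 0 < Module.finrank (E l) ((R l).H.obj (A₁⟦a⟧)) := by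
        rw [ModuleCat.isZero_iff_subsingleton, not_subsingleton_iff_nontrivial] at hA1
        exact Module.finrank_pos
      omega
    obtain ⟨A₂, B, hT2, hA2, hB⟩ := ih X₁ hX1 hdim
    obtain ⟨Y, hY1, hY2⟩ := Tr.assoc' ⟨f, g, h, hT⟩ hT2
    exact ⟨Y, B, hY2, Ext.ext hY1 (Ext.of ⟨a, le_rfl, by omega, hA₁⟩) hA2, hB⟩

lemma remove_many (hc : Conservative (R l)) (hs : LowestHasSub R l) {X : C} {a : ℤ}
    (hX : ∀ i : ℤ, i < a → IsZero ((R l).H.obj (X⟦i⟧))) (j : ℕ) :
    ∃ A B, Tr A X B ∧ Ext (Bt R a (a + j)) A ∧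
      (∀ i : ℤ, i < a + j → IsZero ((R l).H.obj (B⟦i⟧))) := by
  induction j with
  | zero =>
    exact ⟨0, X, Tr.zero₁ (Iso.refl X) (isZero_zero C), .zero (isZero_zero C),
      fun i hi => hX i (by simpa using hi)⟩
  | succ j ih =>
    obtain ⟨A, B, hT, hA, hB⟩ := ih
    obtain ⟨A₁, B₁, hT₁, hA₁, hB₁⟩ := remove_lowest hc hs (a + j) _ B hB le_rfl
    obtain ⟨Y, hY1, hY2⟩ := hT.assoc' hT₁
    refine ⟨Y, B₁, hY2, Ext.ext hY1 (ext_mono ?_ hA) (ext_mono ?_ hA₁), fun i hi => ?_⟩
    · rintro Z ⟨d, h1, h2, h3⟩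
      exact ⟨d, h1, by push_cast; omega, h3⟩
    · rintro Z ⟨d, h1, h2, h3⟩
      exact ⟨d, by omega, by push_cast; omega, h3⟩
    · push_cast at hi
      exact hB₁ i (by omega)

/-- The structure of all objects. -/
lemma decompose (hc : Conservative (R l)) (hs : LowestHasSub R l) (X : C) (c : ℤ) :
    ∃ A B a b, Tr A X B ∧ Ext (Bt R a c) A ∧ Ext (Bt R c b) B := by
  obtain ⟨N, hN⟩ := (R l).bounded X
  obtain ⟨m, hm1, hm2⟩ : ∃ m : ℕ, (N : ℤ) < m ∧ c.natAbs < m := ⟨N + c.natAbs + 1, by omega, by omega⟩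
  obtain ⟨j, hj⟩ : ∃ j : ℕ, -(m : ℤ) + j = c := ⟨(c + m).toNat, by omega⟩
  obtain ⟨A, B, hT, hA, hB⟩ := remove_many hc hs (X := X) (a := -(m : ℤ))
    (fun i hi => hN i (by omega)) j
  rw [hj] at hA hB
  obtain ⟨k, hk⟩ : ∃ k : ℕ, c + k = m := ⟨(m - c).toNat, by omega⟩
  obtain ⟨A', B', hT', hA', hB'⟩ := remove_many hc hs (X := B) (a := c) hB k
  rw [hk] at hA' hB'
  have hBz : IsZero B' := by
    apply hc
    intro i
    by_cases hi : i < m
    · exact hB' i hi
    · obtain ⟨f, g, h, hT⟩ := hT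
      obtain ⟨f', g', h', hT'⟩ := hT'
      have h1 : IsZero ((R l).H.obj (B⟦i⟧)) :=
        hz3 (R l).H hT i (hN i (by omega)) (bt_vanish hA l (Or.inr (by omega)))
      exact hz3 (R l).H hT' i h1 (bt_vanish hA' l (Or.inr (by omega)))
  obtain ⟨e⟩ := hT'.isoOfZero₃ hBz
  exact ⟨A, B, _, _, hT, hA, hA'.iso e⟩

lemma exists_motivic (hid : ∀ e : 𝟙_ C ⟶ 𝟙_ C, e ≫ e = e → e = 0 ∨ e = 𝟙 _)
    (hc : Conservative (R l)) (hs : LowestHasSub R l) : ∃ t : TStructure C, IsMotivic t R := by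
  have hl : LiftsLowest (R l) := by
    intro X hX
    obtain ⟨A, B, hT, hA, hB⟩ := remove_lowest hc hs 0 _ X hX le_rfl
    obtain ⟨f, g, h, hT⟩ := hT
    refine ⟨A, f, fun i hi => bt_vanish hA l (by omega), (vIso_zero_iff f).1 ?_⟩
    exact VIso.of₃ hT (hB _ (by omega)) (hB _ (by omega))
  have he : TExact (tOf hc hl) (R l) := tOf_exact hc hl
  have hG : Good (tOf hc hl) (R l) := good_of hid hc he
  refine ⟨tOf hc hl, hG.hle, hG.hge, hG.ht.le, hG.ht.ge, ?_, ?_⟩
  · intro l' X hX i hi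
    obtain ⟨A, B, a, b, ⟨f, g, h, hT⟩, hA, hB⟩ := decompose hc hs X 1
    have hBz : IsZero B := by
      apply hc
      intro j
      by_cases hj : j < 1
      · exact bt_vanish hB l (Or.inl hj)
      · exact hz3 (R l).H hT j (hX j (by omega)) (bt_vanish hA l (Or.inr (by omega)))
    have := isIso1_of_isZero3 hT hBz
    exact (bt_vanish hA l' (Or.inr (by omega))).of_iso
      ((R l').H.mapIso ((shiftFunctor C i).mapIso (asIso f).symm))
  · intro l' X hX i hi
    obtain ⟨A, B, a, b, ⟨f, g, h, hT⟩, hA, hB⟩ := decompose hc hs X 0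
    have hAz : IsZero A := by
      apply hc
      intro j
      by_cases hj : j < 0
      · exact hz1 (R l).H hT j (hX j hj) (bt_vanish hB l (Or.inl (by omega)))
      · exact bt_vanish hA l (Or.inr (by omega))
    have := isIso2_of_isZero1 hT hAz
    exact (bt_vanish hB l' (Or.inl hi)).of_iso
      ((R l').H.mapIso ((shiftFunctor C i).mapIso (asIso g)))

end

end Pool.Agent.U735.TC
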