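import Pool.Agent.V1178.MT.Defs

/-!
# Motivic subobjects of the lowest cohomology group: definition
-/

set_option autoImplicit false

open CategoryTheory Limits MonoidalCategory Pretriangulated Triangulated

namespace Pool.Agent.U735.TC

open Pool.Agent.Y116.MT Pool.Agent.V1178.MT

universe v u w

section

variable {C : Type u} [Category.{v} C] [Preadditive C] [HasZeroObject C] [HasShift C ℤ]
  [∀ n : ℤ, (shiftFunctor C n).Additive] [Pretriangulated C] [MonoidalCategory C]
  [SymmetricCategory C] [TensorTriangulated C]

/-- Every non-zero lowest cohomology group, for the realisation `R l`, contains the realisation of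
a non-zero object which is concentrated in degree zero for all realisations: if `H^i(X) = 0` for
`i < 0` and `H^0(X) ≠ 0` for `R l`, then there is a morphism `f : A ⟶ X` which is injective on `H^0`
for `R l`, where `A` is not zero and `H^i(A) = 0` for all `i ≠ 0` and all realisations. -/
def LowestHasSub {Λ : Type*} {E : Λ → Type w} [∀ l, Field (E l)] (R : ∀ l, Realisation C (E l))
    (l : Λ) : Prop :=
  ∀ X : C, (∀ i : ℤ, i < 0 → IsZero ((R l).H.obj (X⟦i⟧))) → ¬ IsZero ((R l).H.obj X) →
    ∃ (A : C) (f : A ⟶ X), ¬ IsZero A ∧
      (∀ (l' : Λ) (i : ℤ), i ≠ 0 → IsZero ((R l').H.obj (A⟦i⟧))) ∧ Mono ((R l).H.map f)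

end

end Pool.Agent.U735.TC
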